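import Mathlib
import Pool.Agent.PrimeCircle.Defs
import Pool.Agent.PCW.All
import Pool.Agent.PCW.Cap

set_option autoImplicit false

/-!
# The exact asymptotic number of prime circles (MP_ec65ab_co, Q1)

`numPrimeCircles m` is the number `N(m)` of prime circles of order `2m` up to rotation and
reflection (`Pool/Agent/PrimeCircle/Defs.lean`). The main theorem is `N(m) ~ g(m)`, where
`g(m) = π exp (-2 m) (min_y ∏_i (∑_j y_j) / y_i) ^ 2`, the minimum over all positive vectors
`y_1, …, y_m`, the product over `1 ≤ i ≤ m` and the sum over the `j ≤ m` for which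
`(2 i - 1) + 2 j` is prime. For large `m` the system of equations `x_i ∑_j x_j = 1`
(`1 ≤ i ≤ m`, the same sums) has exactly one positive solution, and
`g(m) = π exp (-2 m) (x_1 ⋯ x_m) ^ (-4)` for this solution. Also `g(m) = π exp (2 H - 2 m)` with the
maximal entropy `H` of a doubly stochastic `m × m` matrix supported on the pairs `(i, j)` for which
`(2 i - 1) + 2 j` is prime. In the formal text the indices `i, j` start from `0`, so that
`(2 i - 1) + 2 j` becomes `2 (i + j) + 3`.
-/

namespace Pool.Agent.Results.MP_ec65ab_co.ExactAsymptotic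

open Finset Filter Topology Pool.Agent.PrimeCircle

/-- The products `∏_i (∑_j y_j) / y_i` for positive vectors `y`; the sum runs over the `j` for
which `2 (i + j) + 3` is prime (indices `0 ≤ i, j < m`). -/
def Products (m : ℕ) : Set ℝ :=
  {c | ∃ y : Fin m → ℝ, (∀ i, 0 < y i) ∧ c = ∏ i : Fin m,
    (∑ j ∈ univ.filter (fun j : Fin m => (2 * ((i : ℕ) + (j : ℕ)) + 3).Prime), y j) / y i}

/-- `x` is a positive solution of the `m` equations `x_i * ∑_j x_j = 1`; the sum runs over the `j`
for which `2 (i + j) + 3` is prime (indices `0 ≤ i, j < m`). -/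
def IsSolution (m : ℕ) (x : Fin m → ℝ) : Prop :=
  ∀ i : Fin m, 0 < x i ∧ x i *
    ∑ j ∈ univ.filter (fun j : Fin m => (2 * ((i : ℕ) + (j : ℕ)) + 3).Prime), x j = 1

/-- The entropies `-∑ B i j log (B i j)` of the doubly stochastic `m × m` matrices `B` supported
on the pairs `(i, j)` for which `2 (i + j) + 3` is prime (indices `0 ≤ i, j < m`). -/
def Entropies (m : ℕ) : Set ℝ :=
  {h | ∃ B ∈ doublyStochastic ℝ (Fin m),
    (∀ i j : Fin m, B i j ≠ 0 → (2 * ((i : ℕ) + (j : ℕ)) + 3).Prime) ∧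
    h = ∑ i, ∑ j, Real.negMulLog (B i j)}

/-- The asymptotic value of the number of prime circles. -/
noncomputable def g (m : ℕ) : ℝ := Real.pi * Real.exp (-2 * (m : ℝ)) * sInf (Products m) ^ 2

/-- `N(m) ~ g(m)`; for large `m` the infimum in `g` is a minimum, the system `IsSolution` has
exactly one solution `x`, `g(m) = π exp(-2m) ∏ x_i^{-4}`, and `g(m) = π exp(2H - 2m)` with the
maximal entropy `H`. -/
theorem result :
    Tendsto (fun m : ℕ => (numPrimeCircles m : ℝ) / g m) atTop (𝓝 1) ∧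
    ∀ᶠ m : ℕ in atTop,
      IsLeast (Products m) (sInf (Products m)) ∧
      (∃! x, IsSolution m x) ∧
      (∀ x, IsSolution m x →
        g m = Real.pi * Real.exp (-2 * (m : ℝ)) * ∏ i, (x i) ^ (-4 : ℤ)) ∧
      ∃ H, IsGreatest (Entropies m) H ∧ g m = Real.pi * Real.exp (2 * H - 2 * m) := by
  have key : ∀ ε : ℝ, 0 < ε → ∀ᶠ m : ℕ in atTop, ∃ H : ℝ, IsGreatest (Entropies m) H ∧
      (∃ x, IsSolution m x) ∧
      (∀ x, IsSolution m x → IsLeast (Products m) (∏ i, (x i)⁻¹ ^ 2) ∧
        ∏ i, (x i)⁻¹ ^ 2 = Real.exp H) ∧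
      |(numPrimeCircles m : ℝ) / (Real.pi * Real.exp (2 * H - 2 * m)) - 1| ≤ ε := by
    intro ε hε
    obtain ⟨C, hC, hE⟩ := PCZ.main_Exi PCZ.main_Apr
    filter_upwards [PCW.final ε hε, hE, eventually_ge_atTop 2,
      (Real.tendsto_log_atTop.comp tendsto_natCast_atTop_atTop).eventually_ge_atTop 1]
      with m hm hE hm2 hL1
    obtain ⟨H, hH, -, hall, h4⟩ := hm
    refine ⟨H, hH, ?_, ?_, h4⟩
    · obtain ⟨x, hx, hx1⟩ := hE
      have hL2 : (1 : ℝ) ≤ Real.log m := hL1
      have hρ : 0 < √(Real.log m / m) := Real.sqrt_pos.2 (by positivity)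
      refine ⟨fun i => x i, fun i => ⟨lt_of_lt_of_le (by positivity) (hx i i.2).1, ?_⟩⟩
      rw [← hx1 i i.2, PCX.wdeg, Finset.sum_range, mul_sum, sum_filter]
      refine sum_congr rfl fun j _ => ?_
      unfold PC.PA
      by_cases h : (2 * ((i : ℕ) + (j : ℕ)) + 3).Prime
      · rw [if_pos h, if_pos h]
      · rw [if_neg h, if_neg h]
    · intro x hx
      have hxp : ∀ i, 0 < x i := fun i => (hx i).1
      have hmem : (∏ i, (x i)⁻¹ ^ 2) ∈ Products m := by
        refine ⟨x, hxp, prod_congr rfl fun i _ => ?_⟩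
        have h1 := (hx i).2
        have h2 : ∑ j ∈ univ.filter (fun j : Fin m => (2 * ((i : ℕ) + (j : ℕ)) + 3).Prime), x j =
            (x i)⁻¹ := (eq_inv_of_mul_eq_one_right h1)
        rw [h2, sq, div_eq_mul_inv]
      refine ⟨⟨hmem, ?_⟩, ?_⟩
      · rintro c ⟨y, hy, rfl⟩
        exact PCW.Cap_le (fun i j : Fin m => (2 * ((i : ℕ) + (j : ℕ)) + 3).Prime)
          (fun i j h => by rw [add_comm (j : ℕ) (i : ℕ)]; exact h) x y hxp hy fun i => (hx i).2
      · -- extend `x` to the natural numbers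
        set X : ℕ → ℝ := fun i => if h : i < m then x ⟨i, h⟩ else 1 with hX
        have hXi : ∀ i : Fin m, X i = x i := fun i => by
          simp only [hX, Fin.is_lt, dite_true, Fin.eta]
        have hXpos : ∀ i < m, 0 < X i := fun i hi => by
          rw [hXi ⟨i, hi⟩]; exact hxp _
        have hXdeg : ∀ i < m, PCX.wdeg m X i = 1 := fun i hi => by
          have h1 := (hx ⟨i, hi⟩).2
          rw [← h1, PCX.wdeg, Finset.sum_range, mul_sum, sum_filter]
          refine sum_congr rfl fun j _ => ?_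
          unfold PC.PA
          simp only
          rw [hXi j, show X i = x ⟨i, hi⟩ from hXi ⟨i, hi⟩]
          by_cases h : (2 * (i + (j : ℕ)) + 3).Prime
          · rw [if_pos h, if_pos h]
          · rw [if_neg h, if_neg h]
        obtain ⟨hs1, hs2⟩ := PCZ.main_Sc m X hXpos hXdeg
        have hs3 := hall (fun a => X ((a - 1) / 2)) hs1
        rw [hs2, Finset.sum_range] at hs3
        have hH2 : H = ∑ i, (-2 * Real.log (x i)) := by
          rw [← mul_sum]
          have : ∑ i : Fin m, Real.log (X i) = ∑ i : Fin m, Real.log (x i) :=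
            sum_congr rfl fun i _ => by rw [hXi i]
          rw [this] at hs3
          linarith
        rw [hH2, Real.exp_sum]
        refine prod_congr rfl fun i _ => ?_
        rw [show -2 * Real.log (x i) = ((2 : ℕ) : ℝ) * (-Real.log (x i)) by push_cast; ring,
          Real.exp_nat_mul, Real.exp_neg, Real.exp_log (hxp i)]
  have hgH : ∀ m : ℕ, ∀ H : ℝ, (∃ x, IsSolution m x) →
      (∀ x, IsSolution m x → IsLeast (Products m) (∏ i, (x i)⁻¹ ^ 2) ∧
        ∏ i, (x i)⁻¹ ^ 2 = Real.exp H) → g m = Real.pi * Real.exp (2 * H - 2 * m) := by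
    intro m H hx hall
    obtain ⟨x, hx⟩ := hx
    obtain ⟨h1, h2⟩ := hall x hx
    have h3 : sInf (Products m) = Real.exp H := by rw [h1.csInf_eq, h2]
    rw [g, h3, ← Real.exp_nat_mul, sub_eq_add_neg, Real.exp_add]
    push_cast
    rw [show -(2 * (m : ℝ)) = -2 * (m : ℝ) by ring]
    ring
  constructor
  · rw [Metric.tendsto_atTop']
    intro ε hε
    obtain ⟨M, hM⟩ := eventually_atTop.1 (key (ε / 2) (by positivity))
    refine ⟨M, fun m hm => ?_⟩
    obtain ⟨H, -, hx, hall, h4⟩ := hM m hm.le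
    rw [Real.dist_eq, hgH m H hx hall]
    exact lt_of_le_of_lt h4 (by linarith)
  · filter_upwards [key 1 one_pos] with m hm
    obtain ⟨H, hH, ⟨x, hx⟩, hall, -⟩ := hm
    refine ⟨?_, ⟨x, hx, fun y hy => PCW.Cap_uniq y x hy hx⟩, fun y hy => ?_,
      H, hH, hgH m H ⟨x, hx⟩ hall⟩
    · have h1 := (hall x hx).1
      rw [h1.csInf_eq]
      exact h1
    · have h1 := (hall y hy).1
      rw [g, h1.csInf_eq, ← prod_pow]
      congr 1
      refine prod_congr rfl fun i _ => ?_
      rw [← pow_mul, zpow_neg, inv_pow]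
      norm_cast

end Pool.Agent.Results.MP_ec65ab_co.ExactAsymptotic
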