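import Mathlib
import Pool.Agent.PCX.Mob
import Pool.Agent.PCX.Div
import Pool.Agent.PCX.Psi
import Pool.Agent.PCX.Pnt
import Pool.Agent.PCX.Tk
import Pool.Agent.PCX.AbsLog
import Pool.Agent.PCX.Riem
import Pool.Agent.PCX.Expn
import Pool.Agent.PCX.Lam
import Pool.Agent.PCX.Recn
import Pool.Agent.PCX.Row
import Pool.Agent.PCX.Ds
import Pool.Agent.PCX.Pm
import Pool.Agent.PCX.Cond
import Pool.Agent.PCX.Low
import Pool.Agent.PCX.Wb
import Pool.Agent.PCX.Up
import Pool.Agent.PCX.Fub
import Pool.Agent.PCX.C2a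
import Pool.Agent.PCX.Mval
import Pool.Agent.PCX.Qval
import Pool.Agent.PCX.Final2

set_option autoImplicit false

/-!
# Asymptotic expansion of the number of prime circles (MP_ec65ab_co, Q1)

`numPrimeCircles m` is the number `N(m)` of prime circles of order `2m` up to rotation and
reflection (`Pool/Agent/PrimeCircle/Defs.lean`). The theorem is the complete asymptotic expansion
`log N(m) = 2 m log m - 2 m log log m + (2 log 2 - 2) m - m ∑_{k ≤ K} c_k / (log m)^k
+ O(m / (log m)^(K+1))` for every `K`, with explicit `c_1` and `c_2`.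
-/

namespace Pool.Agent.Results.MP_ec65ab_co.Expansion

open Filter Pool.Agent.PrimeCircle Pool.Agent.PCX

/-- Complete asymptotic expansion of the logarithm of the number of prime circles of order `2m`. -/
theorem result : ∃ c : ℕ → ℝ, c 1 = 6 * Real.log 2 - 3 ∧
    c 2 = -(23 / 3) * Real.log 2 ^ 2 + 31 / 3 * Real.log 2 - 43 / 12 - Real.pi ^ 2 / 18 ∧
    ∀ K : ℕ, ∃ C : ℝ, ∀ᶠ m : ℕ in atTop, 0 < numPrimeCircles m ∧
      |Real.log (numPrimeCircles m) -
        (2 * m * Real.log m - 2 * m * Real.log (Real.log m) + (2 * Real.log 2 - 2) * m -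
          m * ∑ k ∈ Finset.Icc 1 K, c k / Real.log m ^ k)| ≤ C * m / Real.log m ^ (K + 1) :=
  main_Final2 (main_Rec main_Tk (main_Exp main_Tk) main_Lam) main_Lam
    (main_C2a main_Tk main_Fub) main_Mval main_Qval main_Abs main_Riem
    (main_Row (main_Pnt (main_Psi main_Mob main_Div))) (main_Low (main_Pm main_Ds) main_Cond)
    (main_Up main_Wb)

end Pool.Agent.Results.MP_ec65ab_co.Expansion
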